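import Mathlib

/-!
# Infinite strongly connected clusters: the deterministic part
-/

set_option autoImplicit false

open Relation

namespace Pool.Agent.R113.SC

section Digraph

variable {ι : Type*}

/-- `a` and `b` are connected in both directions by directed paths of `E` -/
def Bi (E : ι → ι → Prop) (a b : ι) : Prop := ReflTransGen E a b ∧ ReflTransGen E b a

theorem Bi.refl (E : ι → ι → Prop) (a : ι) : Bi E a a := ⟨.refl, .refl⟩
theorem Bi.symm {E : ι → ι → Prop} {a b : ι} (h : Bi E a b) : Bi E b a := ⟨h.2, h.1⟩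
theorem Bi.trans {E : ι → ι → Prop} {a b c : ι} (h : Bi E a b) (h' : Bi E b c) : Bi E a c :=
  ⟨h.1.trans h'.1, h'.2.trans h.2⟩

theorem rtg_mono {E E' : ι → ι → Prop} (h : ∀ a b, E a b → E' a b) {a b : ι}
    (hab : ReflTransGen E a b) : ReflTransGen E' a b := by
  induction hab with
  | refl => exact .refl
  | tail _ h2 ih => exact ih.tail (h _ _ h2)

theorem Bi.mono {E E' : ι → ι → Prop} (h : ∀ a b, E a b → E' a b) {a b : ι} (hab : Bi E a b) :
    Bi E' a b := ⟨rtg_mono h hab.1, rtg_mono h hab.2⟩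

/-- the strongly connected cluster of `a` -/
def clu (E : ι → ι → Prop) (a : ι) : Set ι := {b | Bi E a b}

/-- the set of the infinite strongly connected clusters -/
def Inf (E : ι → ι → Prop) : Set (Set ι) := {C | ∃ a, C = clu E a ∧ C.Infinite}

theorem clu_eq {E : ι → ι → Prop} {a b : ι} (h : Bi E a b) : clu E a = clu E b := by
  ext c; exact ⟨fun h' => h.symm.trans h', fun h' => h.trans h'⟩

theorem mem_clu_self (E : ι → ι → Prop) (a : ι) : a ∈ clu E a := Bi.refl E a

/-- new edges at `v` only: connections inside clusters avoiding `v` are old -/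
theorem old_path {E E' : ι → ι → Prop} {v : ι}
    (hnew : ∀ a b, E' a b → ¬ E a b → a = v ∨ b = v) {z : ι} (hv : v ∉ clu E' z) {w : ι}
    (hzw : Bi E' z w) : ReflTransGen E z w := by
  obtain ⟨h1, h2⟩ := hzw
  induction h1 with
  | refl => exact .refl
  | @tail u u' hu huu' ih =>
    have hu'z : ReflTransGen E' u' z := h2
    have huz : ReflTransGen E' u z := ReflTransGen.head huu' hu'z
    refine (ih huz).tail ?_
    by_contra hcon
    rcases hnew _ _ huu' hcon with h | h
    · exact hv (h ▸ (⟨hu, huz⟩ : Bi E' z u))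
    · exact hv (h ▸ (⟨hu.tail huu', hu'z⟩ : Bi E' z u'))

theorem old_bi {E E' : ι → ι → Prop} {v : ι}
    (hnew : ∀ a b, E' a b → ¬ E a b → a = v ∨ b = v) {z : ι} (hv : v ∉ clu E' z) {w : ι}
    (hzw : Bi E' z w) : Bi E z w := by
  refine ⟨old_path hnew hv hzw, old_path hnew (z := w) ?_ hzw.symm⟩
  rw [← clu_eq hzw]; exact hv

/-- **adding edges at one vertex does not merge infinite clusters if the (finite) number of
infinite clusters is unchanged** -/
theorem no_merge {E E' : ι → ι → Prop} (hle : ∀ a b, E a b → E' a b) {v : ι}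
    (hnew : ∀ a b, E' a b → ¬ E a b → a = v ∨ b = v) {k : ℕ}
    (hk : (Inf E).encard = k) (hk' : (Inf E').encard = k) {x y : ι}
    (hx : (clu E x).Infinite) (hy : (clu E y).Infinite) (hxy : ¬ Bi E x y) : ¬ Bi E' x y := by
  intro hcon
  let φ : Set ι → Set ι := fun C => {w | ∃ u ∈ C, Bi E' u w}
  have hφ : ∀ a, φ (clu E a) = clu E' a := by
    intro a; ext w
    constructor
    · rintro ⟨u, hu, huw⟩
      exact (Bi.mono hle hu).trans huw
    · intro h; exact ⟨a, mem_clu_self E a, h⟩
  have hinf : ∀ a, (clu E a).Infinite → (clu E' a).Infinite := fun a h =>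
    h.mono fun b hb => Bi.mono hle hb
  have hfin : (Inf E).Finite := by
    rw [← Set.encard_ne_top_iff, hk]; exact ENat.natCast_ne_top k
  have hfin' : (Inf E').Finite := by
    rw [← Set.encard_ne_top_iff, hk']; exact ENat.natCast_ne_top k
  have himg : φ '' Inf E ⊆ Inf E' := by
    rintro _ ⟨C, ⟨a, rfl, ha⟩, rfl⟩
    rw [hφ]; exact ⟨a, rfl, hinf a ha⟩
  -- `φ` is not surjective
  have hne : ¬ Inf E' ⊆ φ '' Inf E := by
    intro hsub
    have heq : φ '' Inf E = Inf E' := Set.Subset.antisymm himg hsub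
    have hinj : Set.InjOn φ (Inf E) := by
      apply hfin.injOn_of_encard_image_eq
      rw [heq, hk, hk']
    have h1 : φ (clu E x) = φ (clu E y) := by rw [hφ, hφ, clu_eq hcon]
    have h2 := hinj ⟨x, rfl, hx⟩ ⟨y, rfl, hy⟩ h1
    apply hxy
    have : y ∈ clu E y := mem_clu_self E y
    rw [← h2] at this
    exact this
  rw [Set.not_subset] at hne
  obtain ⟨D, ⟨z, rfl, hz⟩, hD⟩ := hne
  have hvz : v ∈ clu E' z := by
    by_contra hv
    apply hD
    have heq : clu E' z = clu E z := by
      ext w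
      exact ⟨fun h => old_bi hnew hv h, fun h => Bi.mono hle h⟩
    refine ⟨clu E z, ⟨z, rfl, heq ▸ hz⟩, hφ z⟩
  have hvx : v ∈ clu E' x := by
    by_contra hv
    exact hxy (old_bi hnew hv hcon)
  apply hD
  refine ⟨clu E x, ⟨x, rfl, hx⟩, ?_⟩
  rw [hφ, clu_eq hvx, clu_eq hvz]

/-- at least `j` infinite clusters -/
def AtLeast (E : ι → ι → Prop) (j : ℕ) : Prop :=
  ∃ T : Finset ι, T.card = j ∧ (∀ a ∈ T, (clu E a).Infinite) ∧
    ∀ a ∈ T, ∀ b ∈ T, a ≠ b → ¬ Bi E a b

theorem atLeast_iff (E : ι → ι → Prop) (j : ℕ) : AtLeast E j ↔ (j : ℕ∞) ≤ (Inf E).encard := by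
  classical
  constructor
  · rintro ⟨T, hT, h1, h2⟩
    have hinj : Set.InjOn (clu E) (T : Set ι) := by
      intro a ha b hb hab
      by_contra hne
      apply h2 a ha b hb hne
      have : b ∈ clu E b := mem_clu_self E b
      rw [← hab] at this
      exact this
    have h3 : (clu E '' (T : Set ι)).encard = j := by
      rw [hinj.encard_image, Set.encard_coe_eq_coe_finsetCard, hT]
    rw [← h3]
    apply Set.encard_le_encard
    rintro _ ⟨a, ha, rfl⟩
    exact ⟨a, rfl, h1 a ha⟩
  · intro h
    obtain ⟨t, ht, htc⟩ := Set.exists_subset_encard_eq h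
    have htf : t.Finite := by
      rw [← Set.encard_ne_top_iff, htc]; exact ENat.natCast_ne_top j
    have hrep : ∀ C : Set ι, C ∈ t → ∃ a, C = clu E a ∧ C.Infinite := fun C hC => ht hC
    by_cases hemp : Nonempty ι
    · obtain ⟨i0⟩ := hemp
      let r : Set ι → ι := fun C => if h : ∃ a, C = clu E a ∧ C.Infinite then h.choose else i0
      have hr : ∀ C ∈ t, C = clu E (r C) ∧ C.Infinite := by
        intro C hC
        have := hrep C hC
        simp only [r, dif_pos this]
        exact this.choose_spec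
      have hinj : Set.InjOn r t := by
        intro C hC C' hC' h
        rw [(hr C hC).1, (hr C' hC').1, h]
      refine ⟨htf.toFinset.image r, ?_, ?_, ?_⟩
      · rw [Finset.card_image_of_injOn (by rw [Set.Finite.coe_toFinset]; exact hinj)]
        rw [htf.encard_eq_coe_toFinset_card] at htc
        exact_mod_cast htc
      · intro a ha
        rw [Finset.mem_image] at ha
        obtain ⟨C, hC, rfl⟩ := ha
        rw [Set.Finite.mem_toFinset] at hC
        rw [← (hr C hC).1]
        exact (hr C hC).2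
      · intro a ha b hb hab hbi
        rw [Finset.mem_image] at ha hb
        obtain ⟨C, hC, rfl⟩ := ha
        obtain ⟨C', hC', rfl⟩ := hb
        rw [Set.Finite.mem_toFinset] at hC hC'
        apply hab
        rw [(hr C hC).1, (hr C' hC').1, clu_eq hbi]
    · have ht0 : t = ∅ := by
        by_contra hne
        obtain ⟨C, hC⟩ := Set.nonempty_iff_ne_empty.2 hne
        obtain ⟨a, _⟩ := hrep C hC
        exact hemp ⟨a⟩
      rw [ht0, Set.encard_empty] at htc
      have hj : j = 0 := by exact_mod_cast htc.symm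
      subst hj
      exact ⟨∅, rfl, by simp, by simp⟩

end Digraph

/-! ### The lattice -/

/-- nearest neighbours of `ℤ^d` -/
def nn {d : ℕ} (a b : Fin d → ℤ) : Prop := ∑ i, |a i - b i| = 1

/-- the directed edge `a → b` is open -/
def Open {d : ℕ} (ε : ℝ) (U : (Fin d → ℤ) → ℝ) (a b : Fin d → ℤ) : Prop :=
  nn a b ∧ U b < U a + ε

theorem nn_symm {d : ℕ} {a b : Fin d → ℤ} (h : nn a b) : nn b a := by
  unfold nn at *
  rw [← h]
  exact Finset.sum_congr rfl fun i _ => abs_sub_comm _ _

/-- the soft cap at the height `1 - δ m` -/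
noncomputable def cap (δ : ℝ) (m : ℕ) (u : ℝ) : ℝ :=
  if m = 0 then u else min u ((1 - δ * m - δ / 2) + δ / 2 * u)

/-- capping all the sites -/
noncomputable def capM {d : ℕ} (δ : ℝ) (m : (Fin d → ℤ) → ℕ) (U : (Fin d → ℤ) → ℝ) :
    (Fin d → ℤ) → ℝ := fun a => cap δ (m a) (U a)

theorem cap_le (δ : ℝ) (m : ℕ) (u : ℝ) : cap δ m u ≤ u := by
  unfold cap; split_ifs
  · exact le_rfl
  · exact min_le_left _ _

theorem cap_mono {δ : ℝ} (hδ : 0 ≤ δ) {m m' : ℕ} (h : m ≤ m') (u : ℝ) :
    cap δ m' u ≤ cap δ m u := by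
  by_cases h0 : m = 0
  · subst h0
    have : cap δ 0 u = u := by unfold cap; rw [if_pos rfl]
    rw [this]; exact cap_le δ m' u
  · have h0' : m' ≠ 0 := by omega
    unfold cap
    rw [if_neg h0, if_neg h0']
    apply min_le_min le_rfl
    have : (m : ℝ) ≤ m' := by exact_mod_cast h
    nlinarith

theorem cap_le_height {δ : ℝ} (hδ : 0 ≤ δ) (m : ℕ) {u : ℝ} (hu : u ≤ 1) :
    cap δ m u ≤ 1 - δ * m := by
  unfold cap
  split_ifs with h
  · subst h; simpa using hu
  · refine (min_le_right _ _).trans ?_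
    nlinarith

theorem cap_cases {δ : ℝ} (hδ : 0 ≤ δ) (m : ℕ) {u : ℝ} (hu : 0 ≤ u) :
    cap δ m u = u ∨ 1 - δ * m - δ / 2 ≤ cap δ m u := by
  unfold cap
  split_ifs with h
  · exact Or.inl rfl
  · rcases min_choice u ((1 - δ * m - δ / 2) + δ / 2 * u) with h1 | h1
    · exact Or.inl h1
    · right; rw [h1]; nlinarith [mul_nonneg hδ hu]

theorem cap_nonneg {δ : ℝ} (hδ : 0 ≤ δ) {m K : ℕ} (hm : m ≤ K) (hK : δ * (K + 1) = 1) {u : ℝ}
    (hu : 0 ≤ u) : 0 ≤ cap δ m u := by
  rcases cap_cases hδ m hu with h | h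
  · rw [h]; exact hu
  · refine le_trans ?_ h
    have : (m : ℝ) ≤ K := by exact_mod_cast hm
    nlinarith

/-- slowly varying -/
def Lip {d : ℕ} (m : (Fin d → ℤ) → ℕ) : Prop := ∀ a b, nn a b → m a ≤ m b + 1

/-- capping more keeps the open edges -/
theorem open_cap {d : ℕ} {ε δ : ℝ} (hδ : 0 < δ) (hδε : 2 * δ ≤ ε) {m m' : (Fin d → ℤ) → ℕ}
    (hmm : ∀ a, m a ≤ m' a) (hL : Lip m') {U : (Fin d → ℤ) → ℝ} (hU : ∀ a, 0 ≤ U a ∧ U a ≤ 1)
    {x y : Fin d → ℤ} (h : Open ε (capM δ m U) x y) : Open ε (capM δ m' U) x y := by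
  obtain ⟨hn, h1⟩ := h
  refine ⟨hn, ?_⟩
  unfold capM at *
  have h2 : cap δ (m' y) (U y) ≤ cap δ (m y) (U y) := cap_mono hδ.le (hmm y) _
  rcases cap_cases hδ.le (m' x) (hU x).1 with h3 | h3
  · rw [h3]
    have h4 := cap_le δ (m x) (U x)
    linarith
  · have h4 := cap_le_height hδ.le (m' y) (hU y).2
    have h5 : (m' x : ℝ) ≤ m' y + 1 := by exact_mod_cast hL x y hn
    nlinarith

/-- **the clusters of `x` and `y` are never merged** -/
theorem never_merge {d : ℕ} {ε δ : ℝ} (hδ : 0 < δ) (hδε : 2 * δ ≤ ε) {U : (Fin d → ℤ) → ℝ}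
    (hU : ∀ a, 0 ≤ U a ∧ U a ≤ 1) {k K : ℕ}
    (hk : ∀ m : (Fin d → ℤ) →₀ ℕ, (∀ a, m a ≤ K) →
      (Inf (Open ε (capM δ m U))).encard = k) {x y : Fin d → ℤ}
    (hx : (clu (Open ε U) x).Infinite) (hy : (clu (Open ε U) y).Infinite)
    (hxy : ¬ Bi (Open ε U) x y) :
    ∀ n : ℕ, ∀ m : (Fin d → ℤ) →₀ ℕ, (∀ a, m a ≤ K) → Lip m → (m.sum fun _ c => c) = n →
      (clu (Open ε (capM δ m U)) x).Infinite ∧ (clu (Open ε (capM δ m U)) y).Infinite ∧
        ¬ Bi (Open ε (capM δ m U)) x y := by
  classical
  intro n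
  induction n with
  | zero =>
    intro m _ _ hm
    have hm0 : m = 0 := by
      ext a
      by_contra h
      have ha : a ∈ m.support := Finsupp.mem_support_iff.2 h
      have := Finset.sum_eq_zero_iff.1 hm a ha
      exact h this
    have hcap : capM δ m U = U := by
      funext a
      unfold capM cap
      rw [hm0]; simp
    rw [hcap]
    exact ⟨hx, hy, hxy⟩
  | succ n ih =>
    intro m hmK hL hm
    have hne : m.support.Nonempty := by
      rw [Finset.nonempty_iff_ne_empty]
      intro h
      have : m = 0 := Finsupp.support_eq_empty.1 h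
      rw [this] at hm
      simp at hm
    obtain ⟨v, hv, hmax⟩ := Finset.exists_max_image m.support m hne
    have hv0 : m v ≠ 0 := Finsupp.mem_support_iff.1 hv
    have hmax' : ∀ b, m b ≤ m v := by
      intro b
      by_cases hb : b ∈ m.support
      · exact hmax b hb
      · rw [Finsupp.notMem_support_iff.1 hb]; exact Nat.zero_le _
    let m' : (Fin d → ℤ) →₀ ℕ := m.update v (m v - 1)
    have hm'v : m' v = m v - 1 := by simp [m']
    have hm'ne : ∀ a, a ≠ v → m' a = m a := by
      intro a ha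
      simp only [m', Finsupp.coe_update]
      exact Function.update_of_ne ha _ _
    have hL' : Lip m' := by
      intro a b hab
      by_cases ha : a = v
      · by_cases hb : b = v
        · rw [ha, hb]; omega
        · rw [ha, hm'v, hm'ne b hb]
          have := hL a b hab
          rw [ha] at this
          omega
      · by_cases hb : b = v
        · rw [hm'ne a ha, hb, hm'v]
          have := hmax' a
          omega
        · rw [hm'ne a ha, hm'ne b hb]; exact hL a b hab
    have hsum : (m'.sum fun _ c => c) = n := by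
      have h1 : m = m' + Finsupp.single v 1 := by
        ext a
        by_cases ha : a = v
        · subst ha
          rw [Finsupp.add_apply, hm'v, Finsupp.single_eq_same]; omega
        · rw [Finsupp.add_apply, hm'ne a ha, Finsupp.single_eq_of_ne ha]; omega
      rw [h1, Finsupp.sum_add_index' (fun _ => rfl) (fun _ _ _ => rfl),
        Finsupp.sum_single_index rfl] at hm
      omega
    have hm'K : ∀ a, m' a ≤ K := by
      intro a
      by_cases ha : a = v
      · rw [ha, hm'v]; have := hmK v; omega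
      · rw [hm'ne a ha]; exact hmK a
    obtain ⟨h1, h2, h3⟩ := ih m' hm'K hL' hsum
    have hle : ∀ a b, Open ε (capM δ m' U) a b → Open ε (capM δ m U) a b := by
      intro a b h
      refine open_cap hδ hδε (fun a => ?_) hL hU h
      by_cases ha : a = v
      · rw [ha, hm'v]; omega
      · rw [hm'ne a ha]
    have hnew : ∀ a b, Open ε (capM δ m U) a b → ¬ Open ε (capM δ m' U) a b →
        a = v ∨ b = v := by
      intro a b h h'
      by_contra hcon
      push Not at hcon
      apply h'
      refine ⟨h.1, ?_⟩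
      have := h.2
      unfold capM at *
      rw [hm'ne a hcon.1, hm'ne b hcon.2]
      exact this
    refine ⟨h1.mono fun b hb => Bi.mono hle hb, h2.mono fun b hb => Bi.mono hle hb, ?_⟩
    exact no_merge hle hnew (hk m' hm'K) (hk m hmK) h1 h2 h3

/-- the `ℓ¹` norm -/
def nrm {d : ℕ} (a : Fin d → ℤ) : ℕ := ∑ i, (a i).natAbs

theorem nrm_le {d : ℕ} {a b : Fin d → ℤ} (h : nn a b) : nrm a ≤ nrm b + 1 := by
  unfold nn at h
  have h1 : (nrm a : ℤ) ≤ nrm b + 1 := by
    unfold nrm
    push_cast
    rw [← h, ← Finset.sum_add_distrib]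
    apply Finset.sum_le_sum
    intro i _
    have := abs_sub_abs_le_abs_sub (a i) (b i)
    linarith
  exact_mod_cast h1

/-- the final cap function -/
noncomputable def mR {d : ℕ} (K R : ℕ) : (Fin d → ℤ) →₀ ℕ :=
  Finsupp.onFinset (Fintype.piFinset fun _ => Finset.Icc (-(R : ℤ)) R)
    (fun a => min K (R - nrm a)) (by
      intro a ha
      rw [Fintype.mem_piFinset]
      intro i
      rw [Finset.mem_Icc]
      have h1 : (a i).natAbs ≤ nrm a := by
        unfold nrm
        exact Finset.single_le_sum (f := fun i => (a i).natAbs) (fun _ _ => Nat.zero_le _)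
          (Finset.mem_univ i)
      have h2 : nrm a < R := by
        by_contra hcon
        apply ha
        have : R - nrm a = 0 := by omega
        simp [this]
      omega)

theorem mR_apply {d : ℕ} (K R : ℕ) (a : Fin d → ℤ) : mR K R a = min K (R - nrm a) := rfl

theorem mR_lip {d : ℕ} (K R : ℕ) : Lip (mR K R : (Fin d → ℤ) →₀ ℕ) := by
  intro a b hab
  rw [mR_apply, mR_apply]
  have := nrm_le (nn_symm hab)
  omega

/-- the core is strongly connected -/
theorem core_conn {d : ℕ} {E : (Fin d → ℤ) → (Fin d → ℤ) → Prop} {r : ℕ}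
    (hE : ∀ a b, nn a b → nrm a ≤ r → nrm b ≤ r → E a b) :
    ∀ n : ℕ, ∀ a : Fin d → ℤ, nrm a = n → n ≤ r → Bi E a 0 := by
  classical
  intro n
  induction n with
  | zero =>
    intro a ha _
    have : a = 0 := by
      funext i
      unfold nrm at ha
      have := Finset.sum_eq_zero_iff.1 ha i (Finset.mem_univ i)
      simpa using this
    rw [this]; exact Bi.refl E 0
  | succ n ih =>
    intro a ha hr
    obtain ⟨i, hi⟩ : ∃ i, a i ≠ 0 := by
      by_contra hcon
      push Not at hcon
      have : nrm a = 0 := by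
        unfold nrm
        apply Finset.sum_eq_zero
        intro i _; rw [hcon i]; rfl
      omega
    -- move one step towards `0`
    let b : Fin d → ℤ := Function.update a i (a i - (a i).sign)
    have hbi : b i = a i - (a i).sign := by simp [b]
    have hbne : ∀ j, j ≠ i → b j = a j := fun j hj => Function.update_of_ne hj _ _
    have hab : nn a b := by
      unfold nn
      rw [Finset.sum_eq_single i]
      · rw [hbi]
        have : a i - (a i - (a i).sign) = (a i).sign := by ring
        rw [this]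
        rcases lt_trichotomy (a i) 0 with h | h | h
        · rw [Int.sign_eq_neg_one_of_neg h]; rfl
        · exact absurd h hi
        · rw [Int.sign_eq_one_of_pos h]; rfl
      · intro j _ hj; rw [hbne j hj]; simp
      · intro h; exact absurd (Finset.mem_univ i) h
    have hnb : nrm b = n := by
      have h1 : nrm a = (a i).natAbs + ∑ j ∈ Finset.univ.erase i, (a j).natAbs :=
        (Finset.add_sum_erase _ (fun j => (a j).natAbs) (Finset.mem_univ i)).symm
      have h2 : nrm b = (b i).natAbs + ∑ j ∈ Finset.univ.erase i, (b j).natAbs :=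
        (Finset.add_sum_erase _ (fun j => (b j).natAbs) (Finset.mem_univ i)).symm
      have h3 : ∑ j ∈ Finset.univ.erase i, (b j).natAbs
          = ∑ j ∈ Finset.univ.erase i, (a j).natAbs := by
        apply Finset.sum_congr rfl
        intro j hj
        rw [hbne j (Finset.ne_of_mem_erase hj)]
      have h4 : (b i).natAbs + 1 = (a i).natAbs := by
        rw [hbi]
        rcases lt_trichotomy (a i) 0 with h | h | h
        · rw [Int.sign_eq_neg_one_of_neg h]; omega
        · exact absurd h hi
        · rw [Int.sign_eq_one_of_pos h]; omega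
      omega
    have h5 := ih b hnb (by omega)
    refine Bi.trans ⟨ReflTransGen.single (hE a b hab (by omega) (by omega)),
      ReflTransGen.single (hE b a (nn_symm hab) (by omega) (by omega))⟩ h5

/-- **deterministic main result** -/
theorem det_main {d : ℕ} {ε δ : ℝ} {K : ℕ} (hδ : 0 < δ) (hδε : 2 * δ ≤ ε)
    (hK : δ * (K + 1) = 1) {U : (Fin d → ℤ) → ℝ} (hU : ∀ a, 0 ≤ U a ∧ U a ≤ 1) {k : ℕ}
    (hk : ∀ m : (Fin d → ℤ) →₀ ℕ, (∀ a, m a ≤ K) →
      (Inf (Open ε (capM δ m U))).encard = k) {x y : Fin d → ℤ}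
    (hx : (clu (Open ε U) x).Infinite) (hy : (clu (Open ε U) y).Infinite) :
    Bi (Open ε U) x y := by
  by_contra hxy
  obtain ⟨_, _, h3⟩ := never_merge hδ hδε hU hk hx hy hxy _ (mR K (max (nrm x) (nrm y) + K))
    (fun a => by rw [mR_apply]; exact min_le_left _ _) (mR_lip _ _) rfl
  apply h3
  set R := max (nrm x) (nrm y) + K with hR
  have hE : ∀ a b : Fin d → ℤ, nn a b → nrm a ≤ max (nrm x) (nrm y) →
      nrm b ≤ max (nrm x) (nrm y) → Open ε (capM δ (mR K R : (Fin d → ℤ) →₀ ℕ) U) a b := by
    intro a b hab ha hb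
    refine ⟨hab, ?_⟩
    unfold capM
    have hmb : (mR K R : (Fin d → ℤ) →₀ ℕ) b = K := by
      rw [mR_apply]
      have : K ≤ R - nrm b := by omega
      omega
    have hma : (mR K R : (Fin d → ℤ) →₀ ℕ) a ≤ K := by
      rw [mR_apply]; exact min_le_left _ _
    have h1 := cap_le_height hδ.le ((mR K R : (Fin d → ℤ) →₀ ℕ) b) (hU b).2
    have h2 := cap_nonneg hδ.le hma hK (hU a).1
    rw [hmb] at h1 ⊢
    nlinarith
  exact (core_conn hE _ x rfl (le_max_left _ _)).trans
    (core_conn hE _ y rfl (le_max_right _ _)).symm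

end Pool.Agent.R113.SC
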