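import Mathlib
import Pool.Agent.R113.SC.Det
import Pool.Agent.R987.Bern

/-!
# Infinite strongly connected clusters: the probabilistic part
-/

set_option autoImplicit false

open MeasureTheory Relation

namespace Pool.Agent.R113.SC

/-- the uniform law on `[0, 1]` -/
noncomputable def unif : Measure ℝ := volume.restrict (Set.Icc 0 1)

instance : IsProbabilityMeasure unif := ⟨by unfold unif; simp⟩

/-- the law of the potentials -/
noncomputable def law (d : ℕ) : Measure ((Fin d → ℤ) → ℝ) := Measure.infinitePi (fun _ => unif)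

instance (d : ℕ) : IsProbabilityMeasure (law d) := by unfold law; infer_instance

/-! ### measurability -/

theorem meas_open {d : ℕ} (ε : ℝ) (a b : Fin d → ℤ) :
    MeasurableSet {U : (Fin d → ℤ) → ℝ | Open ε U a b} := by
  by_cases h : nn a b
  · have : {U : (Fin d → ℤ) → ℝ | Open ε U a b} = {U | U b < U a + ε} := by
      ext U; exact ⟨fun h' => h'.2, fun h' => ⟨h, h'⟩⟩
    rw [this]
    have h1 : Measurable (fun U : (Fin d → ℤ) → ℝ => U b) := measurable_pi_apply b
    have h2 : Measurable (fun U : (Fin d → ℤ) → ℝ => U a + ε) :=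
      Measurable.add_const (measurable_pi_apply a : Measurable fun U : (Fin d → ℤ) → ℝ => U a) ε
    exact measurableSet_lt h1 h2
  · have : {U : (Fin d → ℤ) → ℝ | Open ε U a b} = ∅ := by
      ext U; simp only [Set.mem_ofPred_eq, Set.mem_empty_iff_false, iff_false]
      exact fun h' => h h'.1
    rw [this]; exact MeasurableSet.empty

/-- `n`-step connections -/
def stepN {ι : Type*} (E : ι → ι → Prop) : ℕ → ι → ι → Prop
  | 0, a, b => a = b
  | n + 1, a, b => ∃ c, stepN E n a c ∧ E c b

theorem rtg_iff {ι : Type*} (E : ι → ι → Prop) (a b : ι) :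
    ReflTransGen E a b ↔ ∃ n, stepN E n a b := by
  constructor
  · intro h
    induction h with
    | refl => exact ⟨0, rfl⟩
    | @tail c d _ h2 ih =>
      obtain ⟨n, hn⟩ := ih
      exact ⟨n + 1, c, hn, h2⟩
  · rintro ⟨n, hn⟩
    induction n generalizing b with
    | zero => rw [show a = b from hn]
    | succ n ih =>
      obtain ⟨c, hc, hcb⟩ := hn
      exact (ih c hc).tail hcb

theorem meas_step {d : ℕ} (ε : ℝ) (n : ℕ) (a b : Fin d → ℤ) :
    MeasurableSet {U : (Fin d → ℤ) → ℝ | stepN (Open ε U) n a b} := by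
  induction n generalizing b with
  | zero => exact MeasurableSet.const _
  | succ n ih =>
    have : {U : (Fin d → ℤ) → ℝ | stepN (Open ε U) (n + 1) a b}
        = ⋃ c, ({U | stepN (Open ε U) n a c} ∩ {U | Open ε U c b}) := by
      ext U
      simp only [stepN, Set.mem_iUnion, Set.mem_inter_iff, Set.mem_ofPred_eq]
    rw [this]
    exact MeasurableSet.iUnion fun c => (ih c).inter (meas_open ε c b)

theorem meas_rtg {d : ℕ} (ε : ℝ) (a b : Fin d → ℤ) :
    MeasurableSet {U : (Fin d → ℤ) → ℝ | ReflTransGen (Open ε U) a b} := by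
  have : {U : (Fin d → ℤ) → ℝ | ReflTransGen (Open ε U) a b}
      = ⋃ n, {U | stepN (Open ε U) n a b} := by
    ext U
    simp only [Set.mem_iUnion, Set.mem_ofPred_eq]
    exact rtg_iff _ a b
  rw [this]
  exact MeasurableSet.iUnion fun n => meas_step ε n a b

theorem meas_bi {d : ℕ} (ε : ℝ) (a b : Fin d → ℤ) :
    MeasurableSet {U : (Fin d → ℤ) → ℝ | Bi (Open ε U) a b} :=
  (meas_rtg ε a b).inter (meas_rtg ε b a)

theorem inf_iff {ι : Type*} (s : Set ι) : s.Infinite ↔ ∀ F : Finset ι, ∃ b, b ∉ F ∧ b ∈ s := by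
  constructor
  · intro h F
    obtain ⟨b, hb, hbF⟩ := h.exists_notMem_finset F
    exact ⟨b, hbF, hb⟩
  · intro h hfin
    obtain ⟨b, hb, hbs⟩ := h hfin.toFinset
    exact hb (hfin.mem_toFinset.2 hbs)

theorem meas_inf {d : ℕ} (ε : ℝ) (a : Fin d → ℤ) :
    MeasurableSet {U : (Fin d → ℤ) → ℝ | (clu (Open ε U) a).Infinite} := by
  have : {U : (Fin d → ℤ) → ℝ | (clu (Open ε U) a).Infinite}
      = ⋂ F : Finset (Fin d → ℤ), ⋃ b : Fin d → ℤ, ({_U | b ∉ F} ∩ {U | Bi (Open ε U) a b}) := by
    ext U
    simp only [Set.mem_iInter, Set.mem_iUnion, Set.mem_inter_iff, Set.mem_ofPred_eq]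
    exact inf_iff _
  rw [this]
  exact MeasurableSet.iInter fun F => MeasurableSet.iUnion fun b =>
    (MeasurableSet.const _).inter (meas_bi ε a b)

theorem meas_atLeast {d : ℕ} (ε : ℝ) (j : ℕ) :
    MeasurableSet {U : (Fin d → ℤ) → ℝ | AtLeast (Open ε U) j} := by
  have : {U : (Fin d → ℤ) → ℝ | AtLeast (Open ε U) j}
      = ⋃ T : Finset (Fin d → ℤ), ({_U | T.card = j} ∩
        ((⋂ a : Fin d → ℤ, ({_U | a ∉ T} ∪ {U | (clu (Open ε U) a).Infinite})) ∩
          ⋂ a : Fin d → ℤ, ⋂ b : Fin d → ℤ, ({_U | ¬ (a ∈ T ∧ b ∈ T ∧ a ≠ b)} ∪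
            {U | Bi (Open ε U) a b}ᶜ))) := by
    ext U
    simp only [Set.mem_iInter, Set.mem_iUnion, Set.mem_inter_iff, Set.mem_ofPred_eq,
      Set.mem_union, Set.mem_compl_iff, AtLeast]
    constructor
    · rintro ⟨T, h1, h2, h3⟩
      refine ⟨T, h1, fun a => ?_, fun a b => ?_⟩
      · by_cases ha : a ∈ T
        · exact Or.inr (h2 a ha)
        · exact Or.inl ha
      · by_cases hab : a ∈ T ∧ b ∈ T ∧ a ≠ b
        · exact Or.inr (h3 a hab.1 b hab.2.1 hab.2.2)
        · exact Or.inl hab
    · rintro ⟨T, h1, h2, h3⟩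
      refine ⟨T, h1, fun a ha => ?_, fun a ha b hb hab => ?_⟩
      · rcases h2 a with h | h
        · exact absurd ha h
        · exact h
      · rcases h3 a b with h | h
        · exact absurd ⟨ha, hb, hab⟩ h
        · exact h
  rw [this]
  refine MeasurableSet.iUnion fun T => (MeasurableSet.const _).inter (MeasurableSet.inter ?_ ?_)
  · exact MeasurableSet.iInter fun a => (MeasurableSet.const _).union (meas_inf ε a)
  · exact MeasurableSet.iInter fun a => MeasurableSet.iInter fun b =>
      (MeasurableSet.const _).union (meas_bi ε a b).compl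

/-! ### translations -/

/-- the translated configuration -/
def sh {d : ℕ} (v : Fin d → ℤ) (U : (Fin d → ℤ) → ℝ) : (Fin d → ℤ) → ℝ := fun a => U (a + v)

theorem open_sh {d : ℕ} (ε : ℝ) (v : Fin d → ℤ) (U : (Fin d → ℤ) → ℝ) {a b : Fin d → ℤ}
    (h : Open ε (sh v U) a b) : Open ε U (a + v) (b + v) := by
  refine ⟨?_, h.2⟩
  have := h.1
  unfold nn at *
  simpa using this

theorem rtg_sh {d : ℕ} (ε : ℝ) (v : Fin d → ℤ) (U : (Fin d → ℤ) → ℝ) {a b : Fin d → ℤ}
    (h : ReflTransGen (Open ε (sh v U)) a b) : ReflTransGen (Open ε U) (a + v) (b + v) := by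
  induction h with
  | refl => exact .refl
  | tail _ h2 ih => exact ih.tail (open_sh ε v U h2)

theorem sh_neg {d : ℕ} (v : Fin d → ℤ) (U : (Fin d → ℤ) → ℝ) : sh (-v) (sh v U) = U := by
  funext a; unfold sh; congr 1; abel

theorem bi_sh {d : ℕ} (ε : ℝ) (v : Fin d → ℤ) (U : (Fin d → ℤ) → ℝ) {a b : Fin d → ℤ} :
    Bi (Open ε (sh v U)) a b ↔ Bi (Open ε U) (a + v) (b + v) := by
  constructor
  · intro h; exact ⟨rtg_sh ε v U h.1, rtg_sh ε v U h.2⟩
  · intro h
    rw [← sh_neg v U] at h
    have h1 := rtg_sh ε (-v) (sh v U) h.1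
    have h2 := rtg_sh ε (-v) (sh v U) h.2
    simp only [add_neg_cancel_right] at h1 h2
    exact ⟨h1, h2⟩

theorem atLeast_sh {d : ℕ} (ε : ℝ) (v : Fin d → ℤ) (U : (Fin d → ℤ) → ℝ) {j : ℕ}
    (h : AtLeast (Open ε (sh v U)) j) : AtLeast (Open ε U) j := by
  obtain ⟨T, h1, h2, h3⟩ := h
  refine ⟨T.map (Equiv.addRight v).toEmbedding, ?_, ?_, ?_⟩
  · rw [Finset.card_map, h1]
  · intro a ha
    rw [Finset.mem_map] at ha
    obtain ⟨c, hc, rfl⟩ := ha
    have h4 := (h2 c hc).image (f := fun x => x + v) (fun x _ y _ hxy => add_right_cancel hxy)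
    refine h4.mono ?_
    rintro _ ⟨x, hx, rfl⟩
    exact (bi_sh ε v U).1 hx
  · intro a ha b hb hab
    rw [Finset.mem_map] at ha hb
    obtain ⟨c, hc, rfl⟩ := ha
    obtain ⟨e, he, rfl⟩ := hb
    intro hbi
    refine h3 c hc e he (fun h => hab (by rw [h])) ?_
    exact (bi_sh ε v U).2 hbi

theorem atLeast_sh_iff {d : ℕ} (ε : ℝ) (v : Fin d → ℤ) (U : (Fin d → ℤ) → ℝ) (j : ℕ) :
    AtLeast (Open ε (sh v U)) j ↔ AtLeast (Open ε U) j := by
  constructor
  · exact atLeast_sh ε v U
  · intro h
    rw [← sh_neg v U] at h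
    exact atLeast_sh ε (-v) (sh v U) h

/-! ### absolute continuity of the modifications -/

theorem glue_law {d : ℕ} (a : Fin d → ℤ) :
    (unif.prod (law d)).map (fun z : ℝ × ((Fin d → ℤ) → ℝ) => Function.update z.2 a z.1)
      = law d := by
  have hm : Measurable (fun z : ℝ × ((Fin d → ℤ) → ℝ) => Function.update z.2 a z.1) := by
    refine measurable_pi_lambda _ fun b => ?_
    by_cases hb : b = a
    · subst hb; simpa using measurable_fst
    · simp only [Function.update_of_ne hb]
      exact (measurable_pi_apply b).comp measurable_snd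
  unfold law
  refine Measure.eq_infinitePi _ ?_
  intro s t ht
  classical
  have hmp : MeasurableSet ((s : Set (Fin d → ℤ)).pi t) :=
    MeasurableSet.pi s.countable_toSet fun i _ => ht i
  rw [Measure.map_apply hm hmp]
  by_cases ha : a ∈ s
  · have : (fun z : ℝ × ((Fin d → ℤ) → ℝ) => Function.update z.2 a z.1) ⁻¹' (s : Set _).pi t
        = t a ×ˢ ((s.erase a : Finset _) : Set (Fin d → ℤ)).pi t := by
      ext ⟨u, U⟩
      simp only [Set.mem_preimage, Set.mem_pi, Finset.mem_coe, Set.mem_prod, Finset.mem_erase]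
      constructor
      · intro h
        refine ⟨by simpa using h a ha, ?_⟩
        rintro i ⟨hia, his⟩
        have := h i his
        rwa [Function.update_of_ne hia] at this
      · rintro ⟨h1, h2⟩ i hi
        by_cases hia : i = a
        · subst hia; rw [Function.update_self]; exact h1
        · rw [Function.update_of_ne hia]; exact h2 i ⟨hia, hi⟩
    rw [this, Measure.prod_prod, Measure.infinitePi_pi (fun _ => unif) (fun i _ => ht i),
      Finset.mul_prod_erase s (fun i => unif (t i)) ha]
  · have : (fun z : ℝ × ((Fin d → ℤ) → ℝ) => Function.update z.2 a z.1) ⁻¹' (s : Set _).pi t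
        = Set.univ ×ˢ (s : Set (Fin d → ℤ)).pi t := by
      ext ⟨u, U⟩
      simp only [Set.mem_preimage, Set.mem_pi, Finset.mem_coe, Set.mem_prod, Set.mem_univ,
        true_and]
      constructor
      · intro h i hi
        have hia : i ≠ a := fun h' => ha (h' ▸ hi)
        have := h i hi
        rwa [Function.update_of_ne hia] at this
      · intro h i hi
        have hia : i ≠ a := fun h' => ha (h' ▸ hi)
        rw [Function.update_of_ne hia]; exact h i hi
    rw [this, Measure.prod_prod, measure_univ, one_mul,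
      Measure.infinitePi_pi (fun _ => unif) (fun i _ => ht i)]

theorem upd_ac {d : ℕ} (a : Fin d → ℤ) {g : ℝ → ℝ} (hg : Measurable g)
    (hac : unif.map g ≪ unif) {B : Set ((Fin d → ℤ) → ℝ)} (hB : MeasurableSet B)
    (h0 : law d B = 0) : law d {U | Function.update U a (g (U a)) ∈ B} = 0 := by
  have hm : Measurable (fun z : ℝ × ((Fin d → ℤ) → ℝ) => Function.update z.2 a z.1) := by
    refine measurable_pi_lambda _ fun b => ?_
    by_cases hb : b = a
    · subst hb; simpa using measurable_fst
    · simp only [Function.update_of_ne hb]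
      exact (measurable_pi_apply b).comp measurable_snd
  have hmu : Measurable (fun U : (Fin d → ℤ) → ℝ => Function.update U a (g (U a))) := by
    refine measurable_pi_lambda _ fun b => ?_
    by_cases hb : b = a
    · subst hb
      simp only [Function.update_self]
      exact hg.comp (measurable_pi_apply b)
    · simp only [Function.update_of_ne hb]
      exact measurable_pi_apply b
  have hD : MeasurableSet {U : (Fin d → ℤ) → ℝ | Function.update U a (g (U a)) ∈ B} := hmu hB
  rw [← glue_law a, Measure.map_apply hm hD]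
  have hset : (fun z : ℝ × ((Fin d → ℤ) → ℝ) => Function.update z.2 a z.1) ⁻¹'
      {U | Function.update U a (g (U a)) ∈ B}
      = (Prod.map g id) ⁻¹' ((fun z : ℝ × ((Fin d → ℤ) → ℝ) => Function.update z.2 a z.1) ⁻¹' B)
      := by
    ext ⟨u, U⟩
    simp only [Set.mem_preimage, Set.mem_ofPred_eq, Function.update_self, Prod.map_apply, id,
      Function.update_idem]
  rw [hset, ← Measure.map_apply (hg.prodMap measurable_id) (hm hB),
    ← Measure.map_prod_map _ _ hg measurable_id, Measure.map_id]
  have h1 : (unif.map g).prod (law d) ≪ unif.prod (law d) :=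
    hac.prod Measure.AbsolutelyContinuous.rfl
  apply h1
  rw [← Measure.map_apply hm hB, glue_law a]
  exact h0

theorem cap_meas (δ : ℝ) (m : ℕ) : Measurable (cap δ m) := by
  unfold cap
  split_ifs
  · exact measurable_id
  · exact measurable_id.min ((measurable_id.const_mul _).const_add _)

theorem cap_ac {δ : ℝ} {K m : ℕ} (hδ : 0 < δ) (hK : δ * (K + 1) = 1) (hm : m ≤ K) :
    unif.map (cap δ m) ≪ unif := by
  refine Measure.AbsolutelyContinuous.mk fun s hs h0 => ?_
  rw [Measure.map_apply (cap_meas δ m) hs]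
  by_cases hm0 : m = 0
  · subst hm0
    have : cap δ 0 = id := by funext u; unfold cap; rw [if_pos rfl]; rfl
    rw [this]; exact h0
  · unfold unif at *
    rw [Measure.restrict_apply hs] at h0
    rw [Measure.restrict_apply ((cap_meas δ m) hs)]
    have hmK : (m : ℝ) ≤ K := by exact_mod_cast hm
    have h1m : (1 : ℝ) ≤ m := by exact_mod_cast Nat.one_le_iff_ne_zero.2 hm0
    set α := 1 - δ * m - δ / 2 with hα
    have hα0 : 0 ≤ α := by nlinarith
    have hsub : cap δ m ⁻¹' s ∩ Set.Icc 0 1
        ⊆ (s ∩ Set.Icc 0 1) ∪ (fun u => δ / 2 * u) ⁻¹' ((fun u => α + u) ⁻¹' (s ∩ Set.Icc 0 1)) := by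
      rintro u ⟨h1, h2⟩
      have h3 : cap δ m u ∈ s := h1
      unfold cap at h3
      rw [if_neg hm0] at h3
      rcases min_choice u ((1 - δ * m - δ / 2) + δ / 2 * u) with h4 | h4
      · left; rw [h4] at h3; exact ⟨h3, h2⟩
      · right
        rw [h4] at h3
        refine ⟨h3, ?_⟩
        change 0 ≤ α + δ / 2 * u ∧ α + δ / 2 * u ≤ 1
        obtain ⟨h5, h6⟩ := h2
        constructor
        · positivity
        · nlinarith
    refine measure_mono_null hsub ?_
    rw [measure_union_null_iff]
    refine ⟨h0, ?_⟩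
    rw [Real.volume_preimage_mul_left (by positivity), measure_preimage_add, h0, mul_zero]

theorem capM_ac {d : ℕ} {δ : ℝ} {K : ℕ} (hδ : 0 < δ) (hK : δ * (K + 1) = 1)
    {B : Set ((Fin d → ℤ) → ℝ)} (hB : MeasurableSet B) (h0 : law d B = 0) :
    ∀ n : ℕ, ∀ m : (Fin d → ℤ) →₀ ℕ, m.support.card = n → (∀ a, m a ≤ K) →
      law d {U | capM δ m U ∈ B} = 0 := by
  classical
  intro n
  induction n generalizing B with
  | zero =>
    intro m hm _
    have hm0 : m = 0 := by
      rw [Finset.card_eq_zero] at hm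
      exact Finsupp.support_eq_empty.1 hm
    have : {U : (Fin d → ℤ) → ℝ | capM δ m U ∈ B} = B := by
      ext U
      have hcap : capM δ m U = U := by
        funext a; unfold capM cap; rw [hm0]; simp
      rw [Set.mem_ofPred_eq, hcap]
    rw [this]; exact h0
  | succ n ih =>
    intro m hm hmK
    have hne : m.support.Nonempty := by
      rw [← Finset.card_pos]; omega
    obtain ⟨v, hv⟩ := hne
    let m' : (Fin d → ℤ) →₀ ℕ := m.erase v
    have hm'v : m' v = 0 := Finsupp.erase_same
    have hm'ne : ∀ a, a ≠ v → m' a = m a := fun a ha => Finsupp.erase_ne ha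
    have hcard : m'.support.card = n := by
      rw [Finsupp.support_erase, Finset.card_erase_of_mem hv, hm]; rfl
    have hm'K : ∀ a, m' a ≤ K := by
      intro a
      by_cases ha : a = v
      · rw [ha, hm'v]; exact Nat.zero_le _
      · rw [hm'ne a ha]; exact hmK a
    have hmu : Measurable (fun U : (Fin d → ℤ) → ℝ => Function.update U v (cap δ (m v) (U v))) := by
      refine measurable_pi_lambda _ fun b => ?_
      by_cases hb : b = v
      · subst hb
        simp only [Function.update_self]
        exact (cap_meas δ _).comp (measurable_pi_apply b)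
      · simp only [Function.update_of_ne hb]
        exact measurable_pi_apply b
    -- first cap at `v`, then the others
    have hB' : MeasurableSet {U : (Fin d → ℤ) → ℝ | Function.update U v (cap δ (m v) (U v)) ∈ B} :=
      hmu hB
    have h0' := upd_ac v (cap_meas δ (m v)) (cap_ac hδ hK (hmK v)) hB h0
    have := ih hB' h0' m' hcard hm'K
    have hset : {U : (Fin d → ℤ) → ℝ | capM δ m U ∈ B}
        = {U | capM δ m' U ∈ {U : (Fin d → ℤ) → ℝ |
            Function.update U v (cap δ (m v) (U v)) ∈ B}} := by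
      ext U
      simp only [Set.mem_ofPred_eq]
      have : capM δ m U
          = Function.update (capM δ m' U) v (cap δ (m v) (capM δ m' U v)) := by
        funext a
        by_cases ha : a = v
        · subst ha
          rw [Function.update_self]
          unfold capM
          rw [hm'v]
          have : cap δ 0 (U a) = U a := by unfold cap; rw [if_pos rfl]
          rw [this]
        · rw [Function.update_of_ne ha]
          unfold capM
          rw [hm'ne a ha]
      rw [this]
    rw [hset]; exact this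

/-! ### the main theorem -/

/-- zero-one law for translation invariant events -/
theorem zero_one {d : ℕ} (hd : 1 ≤ d) {A : Set ((Fin d → ℤ) → ℝ)} (hAm : MeasurableSet A)
    (hinv : ∀ v U, U ∈ A ↔ sh v U ∈ A) : law d A = 0 ∨ law d A = 1 := by
  let v : Fin d → ℤ := Pi.single ⟨0, hd⟩ 1
  have hiter : ∀ (n : ℕ) (i : Fin d → ℤ), (fun i : Fin d → ℤ => i + v)^[n] i = i + n • v := by
    intro n
    induction n with
    | zero => intro i; simp
    | succ n ih => intro i; rw [Function.iterate_succ_apply, ih, succ_nsmul]; abel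
  refine Pool.Agent.R987.Bern.ergodic unif (fun i : Fin d → ℤ => i + v)
    (add_left_injective v) ?_ hAm ?_
  · intro F
    -- move beyond all the first coordinates
    obtain ⟨M, hM⟩ : ∃ M : ℕ, ∀ i ∈ F, (i ⟨0, hd⟩).natAbs ≤ M :=
      ⟨F.sup fun i => (i ⟨0, hd⟩).natAbs, fun i hi =>
        Finset.le_sup (f := fun i : Fin d → ℤ => (i ⟨0, hd⟩).natAbs) hi⟩
    refine ⟨2 * M + 1, ?_⟩
    intro i hi hcon
    rw [hiter] at hcon
    have h1 := hM _ hcon
    have h2 := hM _ hi
    have h3 : (i + (2 * M + 1) • v) ⟨0, hd⟩ = i ⟨0, hd⟩ + (2 * M + 1 : ℕ) := by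
      simp [v]
    rw [h3] at h1
    omega
  · exact Filter.Eventually.of_forall fun U => hinv v U

theorem no_k {d : ℕ} (hd : 1 ≤ d) {ε : ℝ} (hε : 0 < ε) {k : ℕ} (hk : 2 ≤ k) :
    ∀ᵐ U ∂(law d), (Inf (Open ε U)).encard ≠ k := by
  set A : Set ((Fin d → ℤ) → ℝ) :=
    {U | AtLeast (Open ε U) k} ∩ {U | AtLeast (Open ε U) (k + 1)}ᶜ with hA
  have hAmem : ∀ U : (Fin d → ℤ) → ℝ, U ∈ A ↔ (Inf (Open ε U)).encard = k := by
    intro U
    simp only [hA, Set.mem_inter_iff, Set.mem_compl_iff, Set.mem_ofPred_eq, atLeast_iff, not_le]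
    push_cast
    rw [ENat.lt_add_one_iff (ENat.natCast_ne_top k)]
    exact ⟨fun h => le_antisymm h.2 h.1, fun h => ⟨h.ge, h.le⟩⟩
  have hAm : MeasurableSet A := (meas_atLeast ε k).inter (meas_atLeast ε (k + 1)).compl
  -- zero-one law
  have h01 : law d A = 0 ∨ law d A = 1 := by
    apply zero_one hd hAm
    intro v U
    simp only [hA, Set.mem_inter_iff, Set.mem_compl_iff, Set.mem_ofPred_eq, atLeast_sh_iff]
  rcases h01 with h01 | h01
  · rw [ae_iff]
    have : {U : (Fin d → ℤ) → ℝ | ¬ (Inf (Open ε U)).encard ≠ k} = A := by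
      ext U; rw [hAmem]; simp
    rw [this]; exact h01
  · exfalso
    -- parameters
    obtain ⟨K, hK⟩ := exists_nat_gt (2 / ε)
    have hK0 : (0 : ℝ) < K + 1 := by positivity
    set δ : ℝ := 1 / (K + 1) with hδ
    have hδ0 : 0 < δ := by positivity
    have hδK : δ * (K + 1) = 1 := by rw [hδ]; field_simp
    have hδε : 2 * δ ≤ ε := by
      rw [hδ]
      rw [div_lt_iff₀ hε] at hK
      have : 2 * (1 / ((K : ℝ) + 1)) = 2 / (K + 1) := by ring
      rw [this, div_le_iff₀ hK0]
      nlinarith
    have hAc : law d Aᶜ = 0 := by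
      rw [measure_compl hAm (measure_ne_top _ _), h01, measure_univ]; simp
    have hae : ∀ m : (Fin d → ℤ) →₀ ℕ, ∀ᵐ U ∂(law d), (∀ a, m a ≤ K) → capM δ m U ∈ A := by
      intro m
      by_cases hmK : ∀ a, m a ≤ K
      · have := capM_ac hδ0 hδK hAm.compl hAc _ m rfl hmK
        rw [ae_iff]
        refine measure_mono_null ?_ this
        intro U hU
        simp only [Set.mem_ofPred_eq] at hU ⊢
        intro h; exact hU fun _ => h
      · exact Filter.Eventually.of_forall fun U h => absurd h hmK
    have hall : ∀ᵐ U ∂(law d), ∀ m : (Fin d → ℤ) →₀ ℕ, (∀ a, m a ≤ K) → capM δ m U ∈ A :=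
      ae_all_iff.2 hae
    have hcube : ∀ᵐ U ∂(law d), ∀ a : Fin d → ℤ, 0 ≤ U a ∧ U a ≤ 1 := by
      rw [ae_all_iff]
      intro a
      have hmp : MeasurePreserving (fun U : (Fin d → ℤ) → ℝ => U a) (law d) unif := by
        unfold law
        exact measurePreserving_eval_infinitePi (fun _ => unif) a
      have h1 : ∀ᵐ u ∂unif, 0 ≤ u ∧ u ≤ 1 := by
        unfold unif
        exact ae_restrict_mem measurableSet_Icc
      exact hmp.quasiMeasurePreserving.ae h1
    obtain ⟨U, hU1, hU2⟩ := (hall.and hcube).exists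
    have hk' : ∀ m : (Fin d → ℤ) →₀ ℕ, (∀ a, m a ≤ K) →
        (Inf (Open ε (capM δ m U))).encard = k := fun m hm => (hAmem _).1 (hU1 m hm)
    have hcap0 : capM δ (0 : (Fin d → ℤ) →₀ ℕ) U = U := by
      funext a; unfold capM cap; simp
    have hUk : AtLeast (Open ε U) k := by
      have := hk' 0 (fun _ => Nat.zero_le _)
      rw [hcap0] at this
      rw [atLeast_iff, this]
    obtain ⟨T, hT, hT1, hT2⟩ := hUk
    obtain ⟨x, hx, y, hy, hxy⟩ := Finset.one_lt_card.1 (by omega : 1 < T.card)
    exact hT2 x hx y hy hxy (det_main hδ0 hδε hδK hU2 hk' (hT1 x hx) (hT1 y hy))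

/-- **the main theorem** -/
theorem main {d : ℕ} (hd : 1 ≤ d) (ε : ℝ) :
    ∀ᵐ U ∂(law d), (Inf (Open ε U)).encard = 0 ∨ (Inf (Open ε U)).encard = 1 ∨
      (Inf (Open ε U)).encard = ⊤ := by
  rcases le_or_gt ε 0 with hε | hε
  · refine Filter.Eventually.of_forall fun U => Or.inl ?_
    rw [Set.encard_eq_zero]
    ext C
    simp only [Set.mem_empty_iff_false, iff_false]
    rintro ⟨a, rfl, ha⟩
    -- clusters are single points
    have hlt : ∀ b c, ReflTransGen (Open ε U) b c → b = c ∨ U c < U b := by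
      intro b c h
      induction h with
      | refl => exact Or.inl rfl
      | @tail e f _ h2 ih =>
        right
        have := h2.2
        rcases ih with h3 | h3
        · rw [h3]; linarith
        · linarith
    have hsub : clu (Open ε U) a ⊆ {a} := by
      intro b hb
      rcases hlt a b hb.1 with h | h
      · exact h.symm
      · rcases hlt b a hb.2 with h' | h'
        · exact h'
        · exact absurd h (not_lt.2 h'.le)
    exact ha ((Set.finite_singleton a).subset hsub)
  · have h : ∀ᵐ U ∂(law d), ∀ k : ℕ, 2 ≤ k → (Inf (Open ε U)).encard ≠ k := by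
      rw [ae_all_iff]
      intro k
      by_cases hk : 2 ≤ k
      · filter_upwards [no_k hd hε hk] with U hU _ using hU
      · exact Filter.Eventually.of_forall fun U h => absurd h hk
    filter_upwards [h] with U hU
    rcases eq_or_ne (Inf (Open ε U)).encard ⊤ with htop | htop
    · exact Or.inr (Or.inr htop)
    · obtain ⟨n, hn⟩ := ENat.ne_top_iff_exists.1 htop
      rw [← hn]
      rcases Nat.lt_or_ge n 2 with h2 | h2
      · interval_cases n
        · left; rfl
        · right; left; rfl
      · exact absurd hn.symm (hU n h2)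

/-- the number of infinite clusters is almost surely constant -/
theorem main_const {d : ℕ} (hd : 1 ≤ d) (ε : ℝ) :
    ∃ n : ℕ∞, (n = 0 ∨ n = 1 ∨ n = ⊤) ∧ ∀ᵐ U ∂(law d), (Inf (Open ε U)).encard = n := by
  have hz : ∀ j : ℕ, (∀ᵐ U ∂(law d), AtLeast (Open ε U) j) ∨
      ∀ᵐ U ∂(law d), ¬ AtLeast (Open ε U) j := by
    intro j
    have hm := meas_atLeast (d := d) ε j
    rcases zero_one hd hm (fun v U => (atLeast_sh_iff ε v U j).symm) with h | h
    · right
      rw [ae_iff]
      simpa using h
    · left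
      rw [ae_iff]
      have : {U : (Fin d → ℤ) → ℝ | ¬ AtLeast (Open ε U) j}
          = {U : (Fin d → ℤ) → ℝ | AtLeast (Open ε U) j}ᶜ := rfl
      rw [this, measure_compl hm (measure_ne_top _ _), h, measure_univ]; simp
  have hmain := main hd ε
  rcases hz 1 with h1 | h1
  · rcases hz 2 with h2 | h2
    · refine ⟨⊤, Or.inr (Or.inr rfl), ?_⟩
      filter_upwards [hmain, h2] with U hU h2
      rw [atLeast_iff] at h2
      rcases hU with h | h | h
      · rw [h] at h2; norm_num at h2
      · rw [h] at h2; norm_num at h2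
      · exact h
    · refine ⟨1, Or.inr (Or.inl rfl), ?_⟩
      filter_upwards [hmain, h1, h2] with U hU h1 h2
      rw [atLeast_iff] at h1 h2
      rcases hU with h | h | h
      · rw [h] at h1; norm_num at h1
      · exact h
      · rw [h] at h2; exact absurd le_top h2
  · refine ⟨0, Or.inl rfl, ?_⟩
    filter_upwards [hmain, h1] with U hU h1
    rw [atLeast_iff] at h1
    rcases hU with h | h | h
    · exact h
    · rw [h] at h1; norm_num at h1
    · rw [h] at h1; exact absurd le_top h1

end Pool.Agent.R113.SC
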